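import Mathlib

/-!
# Product Borsuk-Ulam theorem: definitions and statements

Paper proof in `Pool/Agent/H53/SGC/README.md`.
-/

namespace Pool.SG

/-- the unit sphere of `ℝ^(n+1)` -/
abbrev Sph (n : ℕ) := Metric.sphere (0 : EuclideanSpace ℝ (Fin (n + 1))) 1

/-- the antipodal map in the coordinate `l` -/
noncomputable def flip {N : ℕ → ℕ} (l : ℕ) (x : (j : ℕ) → Sph (N j)) : (j : ℕ) → Sph (N j) :=
  Function.update x l (-(x l))

/-- Product Borsuk-Ulam theorem. -/
def MBUStmt : Prop :=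
  ∀ (N : ℕ → ℕ) (J : Finset ℕ) (ι : Type) [Fintype ι] (ty : ι → ℕ),
    (∀ i, ty i ∈ J) → (∀ j, Fintype.card {i // ty i = j} ≤ N j) →
    ∀ g : ι → ((j : ℕ) → Sph (N j)) → ℝ, (∀ i, Continuous (g i)) →
      (∀ i, ∀ l ∈ J, ∀ x, g i (flip l x) = if l = ty i then - g i x else g i x) →
      ∃ x, ∀ i, g i x = 0

/-- The vertex number `r` of the flag `(w,e,τ)` of the cube grid `{0,…,2m}^N`: the coordinate `c`
is even (equal to `2 w c + 2 e c`) if `τ c < r`, and is odd (equal to `2 w c + 1`) otherwise. -/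
def vtx {N m : ℕ} (w : Fin N → Fin m) (e : Fin N → Bool) (τ : Equiv.Perm (Fin N)) (r : ℕ) :
    Fin N → ℕ :=
  fun c => if (τ c : ℕ) < r then 2 * (w c : ℕ) + 2 * (e c).toNat else 2 * (w c : ℕ) + 1

/-- The sum over all flags. -/
def Tsum (N m : ℕ) (u : Fin N → (Fin N → ℕ) → ZMod 2) : ZMod 2 :=
  ∑ w : Fin N → Fin m, ∑ e : Fin N → Bool, ∑ τ : Equiv.Perm (Fin N),
    ∏ i : Fin N, (u i (vtx w e τ i) + u i (vtx w e τ (i + 1)))

/-- opposite faces `p c = 2m`, `p c = 0` -/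
def R1 (N m : ℕ) (ty : Fin N → ℕ) (u : Fin N → (Fin N → ℕ) → ZMod 2) : Prop :=
  ∀ (i c : Fin N) (p : Fin N → ℕ), (∀ a, p a ≤ 2 * m) → p c = 2 * m →
    u i p = u i (fun a => if a = c then 0 else if c < a ∧ ty a = ty c then 2 * m - p a else p a)
      + (if ty c = ty i then 1 else 0)

/-- the outer coordinate `b` on the boundary: no dependence on the inner coordinate `a`
(only the reflection is needed) -/
def R2 (N m : ℕ) (ty : Fin N → ℕ) (u : Fin N → (Fin N → ℕ) → ZMod 2) : Prop :=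
  ∀ (i a b : Fin N) (p : Fin N → ℕ), (∀ c, p c ≤ 2 * m) → a < b → ty a = ty b →
    (p b = 0 ∨ p b = 2 * m) → u i p = u i (Function.update p a (2 * m - p a))

/-- Combinatorial theorem. -/
def COMBStmt : Prop :=
  ∀ (N m : ℕ), 0 < m → ∀ (ty : Fin N → ℕ) (u : Fin N → (Fin N → ℕ) → ZMod 2),
    R1 N m ty u → R2 N m ty u → Tsum N m u = 1

/-- Spherical coordinates: MODULE SPH.  The coordinates `c` with `ty c = l` are the angles of the
sphere number `l`; the inner coordinates are the small ones. -/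
def SPHStmt : Prop :=
  ∀ (N : ℕ → ℕ) (n : ℕ) (ty : Fin n → ℕ), (∀ j, Fintype.card {i // ty i = j} ≤ N j) →
    ∃ X : (Fin n → ℝ) → ((j : ℕ) → Sph (N j)), Continuous X ∧
      (∀ (c : Fin n) (θ : Fin n → ℝ), θ c = Real.pi →
        X θ = flip (ty c) (X (fun a => if a = c then 0 else
          if c < a ∧ ty a = ty c then Real.pi - θ a else θ a))) ∧
      (∀ (a b : Fin n) (θ : Fin n → ℝ) (s : ℝ), a < b → ty a = ty b → Real.sin (θ b) = 0 →
        X (Function.update θ a s) = X θ)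

end Pool.SG
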