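import Mathlib
import Pool.Agent.H53.SGC.TopDefs

/-!
# A simple C*-algebra that is not finitely generated: definitions and statements
-/

namespace Pool.SG

open scoped Topology ComplexConjugate

noncomputable section

/-- dimensions of the spheres -/
def NN (j : ℕ) : ℕ := 4 * (j + 1) * 4 ^ j

/-- the base space: a product of spheres -/
abbrev SS := (j : ℕ) → Sph (NN j)

/-- the Hilbert space `ℓ²(finite subsets of ℕ)` -/
abbrev HH := lp (fun _ : Finset ℕ => ℂ) 2

abbrev BH := HH →L[ℂ] HH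

/-- the ambient C*-algebra -/
abbrev BB := C(SS, BH)

instance instBB : CStarAlgebra BB := inferInstance
instance instBBNormedRing : NormedRing BB := instBB.toNormedRing
instance instBBRing : Ring BB := instBBNormedRing.toRing
instance instBBSemiring : Semiring BB := instBBRing.toSemiring
instance instBBStarRing : StarRing BB := instBB.toStarRing
instance instBBAlgebra : Algebra ℂ BB := instBB.toNormedAlgebra.toAlgebra
instance instBBStarModule : StarModule ℂ BB := instBB.toStarModule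
instance instBBTopRing : IsTopologicalRing BB := inferInstance
instance instBBTopSemiring : IsTopologicalSemiring BB := inferInstance
instance instBBContinuousStar : ContinuousStar BB := inferInstance

/-- basis vector -/
def bv (s : Finset ℕ) : HH := lp.single 2 s (1 : ℂ)

/-- matrix coefficient `⟨e_s, f e_t⟩` -/
def mc (f : BH) (s t : Finset ℕ) : ℂ := (f (bv t) : Finset ℕ → ℂ) s

def low (k : ℕ) (u : Finset ℕ) : Finset ℕ := u.filter (fun i => i < k)

def high (k : ℕ) (u : Finset ℕ) : Finset ℕ := u.filter (fun i => k ≤ i)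

/-- The operator `e_u ↦ [low k u = t] φ (high k u) e_{s ∪ high k u}`
(for `s t ⊆ {0,…,k-1}` and bounded `φ`). -/
def el (k : ℕ) (s t : Finset ℕ) (φ : Finset ℕ → ℂ) : BH :=
  Classical.epsilon (fun W : BH => ∀ (ξ : HH) (v : Finset ℕ),
    (W ξ : Finset ℕ → ℂ) v = if low k v = s then φ (high k v) * ξ (t ∪ high k v) else 0)

/-- MODULE EL -/
def ELStmt : Prop :=
  ∀ (k : ℕ) (s t : Finset ℕ), s ⊆ Finset.range k → t ⊆ Finset.range k →
    ∀ (φ : Finset ℕ → ℂ) (C : ℝ), (∀ T, ‖φ T‖ ≤ C) →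
      (∀ (ξ : HH) (v : Finset ℕ), (el k s t φ ξ : Finset ℕ → ℂ) v =
        if low k v = s then φ (high k v) * ξ (t ∪ high k v) else 0) ∧ ‖el k s t φ‖ ≤ C

/-- MODULE ELA: the algebra of the operators `el`. -/
def ELAStmt : Prop :=
  (∀ f g : BH, (∀ s t, mc f s t = mc g s t) → f = g) ∧
  (∀ (k : ℕ) (s t : Finset ℕ), s ⊆ Finset.range k → t ⊆ Finset.range k →
    ∀ (φ : Finset ℕ → ℂ) (C : ℝ), (∀ T, ‖φ T‖ ≤ C) →
      (∀ u, el k s t φ (bv u) = if low k u = t then φ (high k u) • bv (s ∪ high k u) else 0) ∧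
      star (el k s t φ) = el k t s (fun T => conj (φ T)) ∧
      (∀ (t' r : Finset ℕ), t' ⊆ Finset.range k → r ⊆ Finset.range k →
        ∀ (ψ : Finset ℕ → ℂ) (D : ℝ), (∀ T, ‖ψ T‖ ≤ D) →
          el k s t φ * el k t' r ψ = if t = t' then el k s r (fun T => φ T * ψ T) else 0) ∧
      (∀ (ψ : Finset ℕ → ℂ) (D : ℝ), (∀ T, ‖ψ T‖ ≤ D) →
        el k s t φ + el k s t ψ = el k s t (fun T => φ T + ψ T)) ∧
      (∀ c : ℂ, c • el k s t φ = el k s t (fun T => c * φ T))) ∧
  (∀ k : ℕ, ∑ s ∈ (Finset.range k).powerset, el k s s (fun _ => 1) = 1)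

/-- the point at which the block `T` is evaluated -/
def pt (z : ℕ → SS) (x : SS) (T : Finset ℕ) : SS :=
  if h : T.Nonempty then z (T.min' h) else x

open Classical in
/-- the function `x ↦ el k s t (T ↦ h (pt z x T))` -/
def G (z : ℕ → SS) (k : ℕ) (s t : Finset ℕ) (h : C(SS, ℂ)) : BB :=
  if hc : Continuous (fun x => el k s t (fun T => h (pt z x T))) then
    ⟨fun x => el k s t (fun T => h (pt z x T)), hc⟩ else 0

/-- MODULE GC -/
def GCStmt : Prop :=
  ∀ (z : ℕ → SS) (k : ℕ) (s t : Finset ℕ), s ⊆ Finset.range k → t ⊆ Finset.range k →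
    ∀ (h : C(SS, ℂ)), (∃ C : ℝ, ∀ x T, ‖h (pt z x T)‖ ≤ C) ∧
      ∀ x, G z k s t h x = el k s t (fun T => h (pt z x T))

/-- `χ_j(s)` -/
def chi (j : ℕ) (s : Finset ℕ) : ℂ := if s.Nonempty ∧ s.sup id = j then -1 else 1

/-- coordinate function -/
def co (j : ℕ) (β : Fin (NN j + 1)) : C(SS, ℂ) :=
  ⟨fun x => (((x j : EuclideanSpace ℝ (Fin (NN j + 1))) β : ℝ) : ℂ), by fun_prop⟩

/-- the generators -/
def gens (z : ℕ → SS) : Set BB :=
  {f | ∃ (k : ℕ) (s : Finset ℕ) (β : Fin (NN (s.sup id) + 1)),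
    s ⊆ Finset.range k ∧ s.Nonempty ∧ f = G z k s ∅ (co (s.sup id) β)}

/-- diagonal unitary `U_j = diag χ_j` -/
def UU (j : ℕ) : BH := el 0 ∅ ∅ (chi j)

/-- projection on the span of the `e_s`, `s ⊆ {0,…,m-1}` -/
def PP (m : ℕ) : BH := el 0 ∅ ∅ (fun T => if T ⊆ Finset.range m then 1 else 0)

/-- `E_m(s) = ∑_T |e_{s ∪ m ∪ T}⟩⟨e_{m ∪ T}|`, `T ⊆ {m+1,…}` -/
def Em (m : ℕ) (s : Finset ℕ) : BH := el (m + 1) (insert m s) {m} (fun _ => 1)

/-- one half of the condition `Good` -/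
def Half (z : ℕ → SS) (k : ℕ) (f : BB) : Prop :=
  (∀ j x, f (flip j x) = UU j * f x * UU j) ∧
  ∀ m, k ≤ m → ∀ x, PP m * f x = f x * PP m ∧
    ∀ s, s ⊆ Finset.range m →
      f x * Em m s = ∑ r ∈ (Finset.range m).powerset, mc (f (z m)) r s • Em m r

/-- `f` belongs to the stage `k` -/
def Good (z : ℕ → SS) (k : ℕ) (f : BB) : Prop :=
  Half z k f ∧ Half z k (star f)

/-- MODULE GG: the elementary elements are good -/
def GGStmt : Prop :=
  ∀ (z : ℕ → SS) (k : ℕ) (s t : Finset ℕ), s ⊆ Finset.range k → t ⊆ Finset.range k →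
    ∀ (h : C(SS, ℂ)), (∀ j x, h (flip j x) = chi j s * chi j t * h x) → Half z k (G z k s t h)

/-- MODULE GA: algebra of the elements `G` -/
def GAStmt : Prop :=
  ∀ (z : ℕ → SS) (k : ℕ) (s t : Finset ℕ), s ⊆ Finset.range k → t ⊆ Finset.range k →
    ∀ (h : C(SS, ℂ)), star (G z k s t h) = G z k t s (star h) ∧
      (∀ (t' r : Finset ℕ), t' ⊆ Finset.range k → r ⊆ Finset.range k → ∀ h' : C(SS, ℂ),
        G z k s t h * G z k t' r h' = if t = t' then G z k s r (h * h') else 0) ∧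
      (∀ h' : C(SS, ℂ), G z k s t h + G z k s t h' = G z k s t (h + h')) ∧
      ∑ s ∈ (Finset.range k).powerset, G z k s s 1 = 1

/-- MODULE CL: closure of the good elements under the operations -/
def CLStmt : Prop :=
  ∀ (z : ℕ → SS) (f g : BB) (k l : ℕ), Good z k f → Good z l g →
    Good z (max k l) (f + g) ∧ Good z (max k l) (f * g) ∧ Good z k (star f) ∧
    (∀ c : ℂ, Good z 0 (algebraMap ℂ BB c))

/-- the dense subalgebra -/
def A0 (z : ℕ → SS) : StarSubalgebra ℂ BB := StarAlgebra.adjoin ℂ (gens z)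

/-- MODULE GD: every element of the dense subalgebra is good -/
def GDStmt : Prop := ∀ (z : ℕ → SS) (f : BB), f ∈ A0 z → ∃ k, Good z k f

/-- every tail of the sequence `z` is dense -/
def DenseZ (z : ℕ → SS) : Prop := ∀ k, Dense {y | ∃ m, k ≤ m ∧ z m = y}

/-- The C*-algebra -/
abbrev AA (z : ℕ → SS) : StarSubalgebra ℂ BB := (A0 z).topologicalClosure

instance instAAClosed (z : ℕ → SS) : IsClosed ((AA z : StarSubalgebra ℂ BB) : Set BB) :=
  StarSubalgebra.isClosed_topologicalClosure _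

instance instAA (z : ℕ → SS) : CStarAlgebra (AA z) := StarSubalgebra.cstarAlgebra (AA z)

/-- MODULE SI -/
def SIStmt : Prop := ∀ z : ℕ → SS, DenseZ z → IsSimpleRing (AA z)

/-- MODULE SE -/
def SEStmt : Prop := ∀ z : ℕ → SS, TopologicalSpace.SeparableSpace (AA z)

/-- MODULE NG -/
def NGStmt : Prop := ∀ (z : ℕ → SS) (F : Set BB), F.Finite → F ⊆ AA z →
  ∃ (x : SS) (K : ℕ), ∀ f ∈ F, PP K * f x = f x * PP K

/-- MODULE NF -/
def NFStmt : Prop := ∀ (z : ℕ → SS) (F : Set (AA z)), F.Finite →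
  (StarAlgebra.adjoin ℂ F).topologicalClosure ≠ ⊤

/-- MODULE ZE -/
def ZEStmt : Prop := ∃ z : ℕ → SS, DenseZ z

end

end Pool.SG
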