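import Pool.Agent.H53.SGC.CDefs

namespace Pool.SG

open scoped ComplexConjugate

theorem low_zero (v : Finset ℕ) : low 0 v = ∅ := by
  simp [low]

theorem high_zero (v : Finset ℕ) : high 0 v = v := by
  simp [high]

theorem chi_norm (j : ℕ) (T : Finset ℕ) : ‖chi j T‖ ≤ 1 := by
  unfold chi; split_ifs <;> simp

theorem chi_mul_self (j : ℕ) (T : Finset ℕ) : chi j T * chi j T = 1 := by
  unfold chi; split_ifs <;> simp

theorem one_eq (hEA : ELAStmt) : el 0 ∅ ∅ (fun _ => 1) = 1 := by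
  have h := hEA.2.2 0
  simpa using h

theorem UU_mul_self (hEA : ELAStmt) (j : ℕ) : UU j * UU j = 1 := by
  have h := (hEA.2.1 0 ∅ ∅ (by simp) (by simp) (chi j) 1 (chi_norm j)).2.2.1 ∅ ∅ (by simp) (by simp)
    (chi j) 1 (chi_norm j)
  rw [if_pos rfl] at h
  unfold UU
  rw [h, ← one_eq hEA]
  congr 1
  ext T
  exact chi_mul_self j T

theorem PP_apply (hE : ELStmt) (m : ℕ) (ξ : HH) (v : Finset ℕ) :
    (PP m ξ : Finset ℕ → ℂ) v = if v ⊆ Finset.range m then ξ v else 0 := by
  have h := (hE 0 ∅ ∅ (by simp) (by simp) (fun T => if T ⊆ Finset.range m then 1 else 0) 1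
    (fun T => by split_ifs <;> simp)).1 ξ v
  unfold PP
  rw [h, low_zero, high_zero]
  simp

theorem bv_apply (s v : Finset ℕ) : (bv s : Finset ℕ → ℂ) v = if v = s then 1 else 0 := by
  unfold bv
  rw [lp.single_apply]
  by_cases h : v = s
  · subst h; simp
  · simp [h]

theorem PP_bv (hE : ELStmt) (m : ℕ) (s : Finset ℕ) (hs : s ⊆ Finset.range m) :
    PP m (bv s) = bv s := by
  ext v
  rw [PP_apply hE, bv_apply]
  by_cases h : v = s
  · subst h; simp [hs]
  · simp [h]

theorem lp_sum_apply {ι : Type*} (A : Finset ι) (F : ι → HH) (v : Finset ℕ) :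
    ((∑ r ∈ A, F r : HH) : Finset ℕ → ℂ) v = ∑ r ∈ A, (F r : Finset ℕ → ℂ) v := by
  rw [lp.coeFn_sum, Finset.sum_apply]

theorem fixed_eq_sum (hE : ELStmt) (m : ℕ) (ξ : HH) (h : PP m ξ = ξ) :
    ξ = ∑ r ∈ (Finset.range m).powerset, (ξ : Finset ℕ → ℂ) r • bv r := by
  ext v
  rw [lp_sum_apply]
  have h1 : ∀ r, ((((ξ : Finset ℕ → ℂ) r • bv r : HH)) : Finset ℕ → ℂ) v
      = if v = r then (ξ : Finset ℕ → ℂ) r else 0 := by
    intro r
    rw [lp.coeFn_smul, Pi.smul_apply, bv_apply]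
    split_ifs <;> simp
  simp_rw [h1]
  rw [Finset.sum_ite_eq]
  split_ifs with h2
  · rfl
  · rw [← h, PP_apply hE, if_neg]
    simpa using h2

theorem Half.mono {z : ℕ → SS} {k k' : ℕ} {f : BB} (h : Half z k f) (hk : k ≤ k') :
    Half z k' f :=
  ⟨h.1, fun m hm x => h.2 m (hk.trans hm) x⟩

theorem Half.add {z : ℕ → SS} {k : ℕ} {f g : BB} (hf : Half z k f) (hg : Half z k g) :
    Half z k (f + g) := by
  refine ⟨fun j x => ?_, fun m hm x => ⟨?_, fun s hs => ?_⟩⟩
  · change f (flip j x) + g (flip j x) = UU j * (f x + g x) * UU j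
    rw [hf.1, hg.1, mul_add, add_mul]
  · change PP m * (f x + g x) = (f x + g x) * PP m
    rw [mul_add, add_mul, (hf.2 m hm x).1, (hg.2 m hm x).1]
  · change (f x + g x) * Em m s = ∑ r ∈ _, mc (f (z m) + g (z m)) r s • Em m r
    rw [add_mul, (hf.2 m hm x).2 s hs, (hg.2 m hm x).2 s hs, ← Finset.sum_add_distrib]
    refine Finset.sum_congr rfl fun r _ => ?_
    rw [← add_smul]
    rfl

theorem mc_mul (hE : ELStmt) (m : ℕ) (f g : BH) (s : Finset ℕ) (hs : s ⊆ Finset.range m)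
    (hg : PP m * g = g * PP m) (q : Finset ℕ) :
    mc (f * g) q s = ∑ r ∈ (Finset.range m).powerset, mc f q r * mc g r s := by
  have h1 : PP m (g (bv s)) = g (bv s) := by
    have : (PP m * g) (bv s) = (g * PP m) (bv s) := by rw [hg]
    have h2 : (PP m * g) (bv s) = PP m (g (bv s)) := rfl
    have h3 : (g * PP m) (bv s) = g (PP m (bv s)) := rfl
    rw [h2, h3, PP_bv hE m s hs] at this
    exact this
  have h4 := fixed_eq_sum hE m _ h1
  unfold mc
  have h5 : (f * g) (bv s) = f (g (bv s)) := rfl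
  rw [h5, h4, map_sum, lp_sum_apply]
  refine Finset.sum_congr rfl fun r _ => ?_
  rw [map_smul, lp.coeFn_smul, Pi.smul_apply, smul_eq_mul, mul_comm, ← h4]

theorem Half.mul (hE : ELStmt) (hEA : ELAStmt) {z : ℕ → SS} {k : ℕ} {f g : BB}
    (hf : Half z k f) (hg : Half z k g) : Half z k (f * g) := by
  refine ⟨fun j x => ?_, fun m hm x => ⟨?_, fun s hs => ?_⟩⟩
  · change f (flip j x) * g (flip j x) = UU j * (f x * g x) * UU j
    rw [hf.1, hg.1]
    have := UU_mul_self hEA j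
    calc UU j * f x * UU j * (UU j * g x * UU j)
        = UU j * f x * (UU j * UU j) * g x * UU j := by noncomm_ring
      _ = UU j * (f x * g x) * UU j := by rw [this]; noncomm_ring
  · change PP m * (f x * g x) = (f x * g x) * PP m
    rw [← mul_assoc, (hf.2 m hm x).1, mul_assoc, (hg.2 m hm x).1, mul_assoc]
  · change (f x * g x) * Em m s = ∑ q ∈ _, mc (f (z m) * g (z m)) q s • Em m q
    rw [mul_assoc, (hg.2 m hm x).2 s hs, Finset.mul_sum]
    have h1 : ∀ r ∈ (Finset.range m).powerset, f x * (mc (g (z m)) r s • Em m r)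
        = ∑ q ∈ (Finset.range m).powerset, (mc (f (z m)) q r * mc (g (z m)) r s) • Em m q := by
      intro r hr
      rw [mul_smul_comm, (hf.2 m hm x).2 r (Finset.mem_powerset.1 hr), Finset.smul_sum]
      refine Finset.sum_congr rfl fun q _ => ?_
      rw [smul_smul, mul_comm]
    rw [Finset.sum_congr rfl h1, Finset.sum_comm]
    refine Finset.sum_congr rfl fun q _ => ?_
    rw [← Finset.sum_smul, mc_mul hE m _ _ s hs ((hg.2 m hm (z m)).1) q]

theorem Half.alg (hEA : ELAStmt) (z : ℕ → SS) (c : ℂ) : Half z 0 (algebraMap ℂ BB c) := by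
  have h0 : ∀ x : SS, (algebraMap ℂ BB c) x = c • (1 : BH) := by
    intro x
    rw [Algebra.algebraMap_eq_smul_one]
    rfl
  refine ⟨fun j x => ?_, fun m hm x => ⟨?_, fun s hs => ?_⟩⟩
  · rw [h0, h0, mul_smul_comm, mul_one, smul_mul_assoc, UU_mul_self hEA]
  · rw [h0, mul_smul_comm, smul_mul_assoc, mul_one, one_mul]
  · rw [h0, h0, smul_mul_assoc, one_mul]
    have h1 : ∀ r, mc (c • (1 : BH)) r s = if r = s then c else 0 := by
      intro r
      unfold mc
      have : (c • (1 : BH)) (bv s) = c • bv s := rfl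
      rw [this, lp.coeFn_smul, Pi.smul_apply, bv_apply]
      split_ifs <;> simp
    simp_rw [h1, ite_smul, zero_smul]
    rw [Finset.sum_ite_eq', if_pos (Finset.mem_powerset.2 hs)]

theorem cl (hE : ELStmt) (hEA : ELAStmt) : CLStmt := by
  intro z f g k l hf hg
  have hf1 := hf.1.mono (le_max_left k l)
  have hf2 := hf.2.mono (le_max_left k l)
  have hg1 := hg.1.mono (le_max_right k l)
  have hg2 := hg.2.mono (le_max_right k l)
  refine ⟨⟨hf1.add hg1, ?_⟩, ⟨hf1.mul hE hEA hg1, ?_⟩, ⟨hf.2, ?_⟩, fun c => ⟨Half.alg hEA z c, ?_⟩⟩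
  · rw [star_add]; exact hf2.add hg2
  · rw [star_mul]; exact hg2.mul hE hEA hf2
  · rw [star_star]; exact hf.1
  · have : star (algebraMap ℂ BB c) = algebraMap ℂ BB (star c) := by
      rw [algebraMap_star_comm]
    rw [this]
    exact Half.alg hEA z (star c)

end Pool.SG
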