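import Pool.Agent.H53.SGC.CDefs

namespace Pool.SG

open scoped ComplexConjugate

theorem ga (hEA : ELAStmt) (hGC : GCStmt) : GAStmt := by
  intro z k s t hs ht h
  obtain ⟨⟨C, hC⟩, hG⟩ := hGC z k s t hs ht h
  refine ⟨?_, ?_, ?_, ?_⟩
  · ext1 x
    obtain ⟨_, hG'⟩ := hGC z k t s ht hs (star h)
    have h2 := (hEA.2.1 k s t hs ht (fun T => h (pt z x T)) C (fun T => hC x T)).2.1
    rw [hG']
    change star (G z k s t h x) = _
    rw [hG x, h2]
    rfl
  · intro t' r ht' hr h'
    obtain ⟨⟨D, hD⟩, hG'⟩ := hGC z k t' r ht' hr h'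
    ext1 x
    have h2 := (hEA.2.1 k s t hs ht (fun T => h (pt z x T)) C (fun T => hC x T)).2.2.1 t' r ht' hr
      (fun T => h' (pt z x T)) D (fun T => hD x T)
    change G z k s t h x * G z k t' r h' x = _
    rw [hG x, hG' x, h2]
    split_ifs with htt
    · rw [(hGC z k s r hs hr (h * h')).2 x]
      rfl
    · rfl
  · intro h'
    obtain ⟨⟨D, hD⟩, hG'⟩ := hGC z k s t hs ht h'
    ext1 x
    have h2 := (hEA.2.1 k s t hs ht (fun T => h (pt z x T)) C (fun T => hC x T)).2.2.2.1
      (fun T => h' (pt z x T)) D (fun T => hD x T)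
    change G z k s t h x + G z k s t h' x = _
    rw [hG x, hG' x, h2, (hGC z k s t hs ht (h + h')).2 x]
    rfl
  · ext1 x
    have h3 := hEA.2.2 k
    have : (∑ s ∈ (Finset.range k).powerset, G z k s s 1) x
        = ∑ s ∈ (Finset.range k).powerset, (G z k s s 1) x := by
      rw [ContinuousMap.coe_sum, Finset.sum_apply]
    rw [this]
    change _ = (1 : BH)
    rw [← h3]
    refine Finset.sum_congr rfl fun s hs => ?_
    rw [(hGC z k s s (Finset.mem_powerset.1 hs) (Finset.mem_powerset.1 hs) 1).2 x]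
    rfl

end Pool.SG
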