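import Pool.Agent.H53.SGC.CL
import Pool.Agent.H83.SGC.ELA

namespace Pool.SG

open scoped ComplexConjugate

theorem bv_ext {f g : BH} (h : ∀ u, f (bv u) = g (bv u)) : f = g :=
  ela_ext fun s t => by unfold mc; rw [h t]

theorem UU_bv' (hE : ELStmt) (j : ℕ) (t : Finset ℕ) : UU j (bv t) = chi j t • bv t := by
  ext v
  have h := (hE 0 ∅ ∅ (by simp) (by simp) (chi j) 1 (chi_norm j)).1 (bv t) v
  unfold UU
  rw [h, low_zero, high_zero, lp.coeFn_smul, Pi.smul_apply, bv_apply, smul_eq_mul]
  simp only [if_true, Finset.empty_union]
  rw [bv_apply]
  split_ifs with h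
  · rw [h]
  · simp

theorem PP_bv' (hE : ELStmt) (m : ℕ) (s : Finset ℕ) :
    PP m (bv s) = if s ⊆ Finset.range m then bv s else 0 := by
  by_cases h1 : s ⊆ Finset.range m
  · rw [if_pos h1, PP_bv hE m s h1]
  · rw [if_neg h1]
    ext v
    rw [PP_apply hE, bv_apply]
    by_cases h : v = s
    · subst h
      rw [if_neg h1]; rfl
    · rw [if_neg h, ite_self]; rfl

theorem low_union_sub {k : ℕ} {s T : Finset ℕ} (hs : s ⊆ Finset.range k)
    (hT : ∀ i ∈ T, k ≤ i) : low k (s ∪ T) = s ∧ high k (s ∪ T) = T := by
  constructor
  · ext i
    simp only [low, Finset.mem_filter, Finset.mem_union]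
    constructor
    · rintro ⟨h | h, h2⟩
      · exact h
      · have := hT i h; omega
    · intro h
      exact ⟨Or.inl h, Finset.mem_range.1 (hs h)⟩
  · ext i
    simp only [high, Finset.mem_filter, Finset.mem_union]
    constructor
    · rintro ⟨h | h, h2⟩
      · have := Finset.mem_range.1 (hs h); omega
      · exact h
    · intro h
      exact ⟨Or.inr h, hT i h⟩

theorem chi_union {k : ℕ} {s T : Finset ℕ} (hs : s ⊆ Finset.range k)
    (hT : ∀ i ∈ T, k ≤ i) (hne : T.Nonempty) (j : ℕ) : chi j (s ∪ T) = chi j T := by
  have h1 : (s ∪ T).sup id = T.sup id := by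
    rw [Finset.sup_union]
    apply sup_eq_right.2
    obtain ⟨i, hi⟩ := hne
    refine Finset.sup_le fun a ha => ?_
    have h2 := Finset.mem_range.1 (hs ha)
    have h3 := hT i hi
    have h4 : i ≤ T.sup id := Finset.le_sup (f := id) hi
    simp only [id]
    omega
  have h5 : (s ∪ T).Nonempty := hne.mono Finset.subset_union_right
  unfold chi
  rw [h1]
  simp [hne, h5]

theorem high_ge (k : ℕ) (u : Finset ℕ) : ∀ i ∈ high k u, k ≤ i := by
  intro i hi
  exact (Finset.mem_filter.1 hi).2

theorem gg (hE : ELStmt) (hEA : ELAStmt) (hGC : GCStmt) : GGStmt := by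
  classical
  intro z k s t hs ht h hh
  obtain ⟨⟨C, hC⟩, hG⟩ := hGC z k s t hs ht h
  have hW : ∀ x u, (G z k s t h x) (bv u) =
      if low k u = t then h (pt z x (high k u)) • bv (s ∪ high k u) else 0 := by
    intro x u
    rw [hG x]
    exact (hEA.2.1 k s t hs ht _ C (fun T => hC x T)).1 u
  refine ⟨fun j x => bv_ext fun u => ?_, fun m hm x => ⟨bv_ext fun u => ?_, fun r0 hr0 =>
    bv_ext fun u => ?_⟩⟩
  · have h1 : (UU j * G z k s t h x * UU j) (bv u) = UU j (G z k s t h x (UU j (bv u))) := rfl
    rw [h1, UU_bv' hE, map_smul, map_smul, hW, hW]
    by_cases hl : low k u = t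
    · rw [if_pos hl, if_pos hl, map_smul, UU_bv' hE, smul_smul, smul_smul]
      congr 1
      have hu : u = t ∪ high k u := by
        conv_lhs => rw [← el_split k u, hl]
      by_cases hT : (high k u).Nonempty
      · have e1 : chi j u = chi j (high k u) := by
          conv_lhs => rw [hu]
          exact chi_union ht (high_ge k u) hT j
        have e2 : chi j (s ∪ high k u) = chi j (high k u) := chi_union hs (high_ge k u) hT j
        have e3 : pt z (flip j x) (high k u) = pt z x (high k u) := by
          unfold pt; rw [dif_pos hT, dif_pos hT]
        rw [e1, e2, e3]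
        have := chi_mul_self j (high k u)
        linear_combination -h (pt z x (high k u)) * this
      · rw [Finset.not_nonempty_iff_eq_empty] at hT
        rw [hT]
        rw [hT, Finset.union_empty] at hu
        have e3 : ∀ y : SS, pt z y ∅ = y := by intro y; simp [pt]
        rw [e3, e3, hh j x, Finset.union_empty, hu]
        ring
    · rw [if_neg hl, if_neg hl, map_zero, smul_zero]
  · have h1 : (PP m * G z k s t h x) (bv u) = PP m (G z k s t h x (bv u)) := rfl
    have h2 : (G z k s t h x * PP m) (bv u) = G z k s t h x (PP m (bv u)) := rfl
    rw [h1, h2, PP_bv' hE, hW]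
    by_cases hl : low k u = t
    · rw [if_pos hl, map_smul, PP_bv' hE]
      have e1 : u ⊆ Finset.range m ↔ high k u ⊆ Finset.range m := by
        constructor
        · exact fun h => (Finset.filter_subset _ _).trans h
        · intro h
          rw [← el_split k u]
          exact Finset.union_subset ((el_low_sub k u).trans (Finset.range_mono hm)) h
      have e2 : s ∪ high k u ⊆ Finset.range m ↔ high k u ⊆ Finset.range m := by
        constructor
        · exact fun h => Finset.subset_union_right.trans h
        · exact fun h => Finset.union_subset (hs.trans (Finset.range_mono hm)) h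
      by_cases h3 : high k u ⊆ Finset.range m
      · rw [if_pos (e2.2 h3), if_pos (e1.2 h3), hW, if_pos hl]
      · rw [if_neg (fun h => h3 (e2.1 h)), if_neg (fun h => h3 (e1.1 h)), map_zero, smul_zero]
    · rw [if_neg hl, map_zero]
      split_ifs
      · rw [hW, if_neg hl]
      · rw [map_zero]
  · have hEm : ∀ (r : Finset ℕ), r ⊆ Finset.range m → Em m r (bv u) =
        if low (m + 1) u = {m} then bv (insert m r ∪ high (m + 1) u) else 0 := by
      intro r hr
      have hr' : insert m r ⊆ Finset.range (m + 1) := by
        intro i hi
        rw [Finset.mem_insert] at hi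
        rcases hi with rfl | hi
        · simp
        · have := Finset.mem_range.1 (hr hi)
          exact Finset.mem_range.2 (by omega)
      have := (hEA.2.1 (m + 1) (insert m r) {m} hr' (by simp) (fun _ => 1) 1 (by simp)).1 u
      unfold Em
      rw [this]
      simp
    have h1 : (G z k s t h x * Em m r0) (bv u) = G z k s t h x (Em m r0 (bv u)) := rfl
    rw [h1, _root_.sum_apply]
    have h2 : ∀ r ∈ (Finset.range m).powerset,
        (mc (G z k s t h (z m)) r r0 • Em m r) (bv u) =
        mc (G z k s t h (z m)) r r0 •
          (if low (m + 1) u = {m} then bv (insert m r ∪ high (m + 1) u) else 0) := by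
      intro r hr
      rw [← hEm r (Finset.mem_powerset.1 hr)]
      rfl
    rw [Finset.sum_congr rfl h2, hEm r0 hr0]
    by_cases hlm : low (m + 1) u = {m}
    · simp only [if_pos hlm]
      set T := high (m + 1) u with hTdef
      have hT : ∀ i ∈ T, m + 1 ≤ i := high_ge (m + 1) u
      -- decompose the index
      have hidx : insert m r0 ∪ T = low k r0 ∪ (high k r0 ∪ insert m T) := by
        conv_lhs => rw [← el_split k r0]
        ext i
        simp only [Finset.mem_union, Finset.mem_insert]
        tauto
      have hhi : ∀ i ∈ high k r0 ∪ insert m T, k ≤ i := by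
        intro i hi
        rw [Finset.mem_union, Finset.mem_insert] at hi
        rcases hi with hi | rfl | hi
        · exact high_ge k r0 i hi
        · exact hm
        · have := hT i hi; omega
      obtain ⟨hlow, hhigh⟩ := low_union_sub (el_low_sub k r0) hhi
      rw [hW, hidx, hlow, hhigh]
      have hmc : ∀ r, mc (G z k s t h (z m)) r r0 =
          if low k r0 = t then (if r = s ∪ high k r0 then h (pt z (z m) (high k r0)) else 0)
          else 0 := by
        intro r
        unfold mc
        rw [hW]
        split_ifs with a b
        · rw [lp.coeFn_smul, Pi.smul_apply, bv_apply, if_pos b]; simp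
        · rw [lp.coeFn_smul, Pi.smul_apply, bv_apply, if_neg b]; simp
        · rfl
      simp only [hmc]
      by_cases hl : low k r0 = t
      · simp only [if_pos hl, ite_smul, zero_smul]
        rw [Finset.sum_ite_eq']
        have hmem : s ∪ high k r0 ∈ (Finset.range m).powerset := by
          rw [Finset.mem_powerset]
          exact Finset.union_subset (hs.trans (Finset.range_mono hm))
            ((Finset.filter_subset _ _).trans hr0)
        rw [if_pos hmem]
        have e1 : pt z x (high k r0 ∪ insert m T) = pt z (z m) (high k r0) := by
          have hne : (high k r0 ∪ insert m T).Nonempty := ⟨m, by simp⟩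
          unfold pt
          rw [dif_pos hne]
          by_cases hn : (high k r0).Nonempty
          · rw [dif_pos hn]
            congr 1
            apply le_antisymm
            · exact Finset.min'_subset hn Finset.subset_union_left
            · refine Finset.le_min' _ _ _ fun y hy => ?_
              rw [Finset.mem_union, Finset.mem_insert] at hy
              have hmin : (high k r0).min' hn < m := by
                have h5 := Finset.min'_mem _ hn
                exact Finset.mem_range.1 (hr0 ((Finset.filter_subset _ _) h5))
              rcases hy with hy | rfl | hy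
              · exact Finset.min'_le _ _ hy
              · exact hmin.le
              · have := hT y hy; omega
          · rw [dif_neg hn]
            congr 1
            rw [Finset.not_nonempty_iff_eq_empty] at hn
            apply le_antisymm
            · exact Finset.min'_le _ _ (by simp)
            · refine Finset.le_min' _ _ _ fun y hy => ?_
              rw [hn, Finset.empty_union, Finset.mem_insert] at hy
              rcases hy with rfl | hy
              · exact le_rfl
              · have := hT y hy; omega
        rw [e1]
        congr 2
        ext i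
        simp only [Finset.mem_union, Finset.mem_insert]
        tauto
      · simp only [if_neg hl, zero_smul, Finset.sum_const_zero]
    · simp only [if_neg hlm, map_zero, smul_zero, Finset.sum_const_zero]

end Pool.SG
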