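import Pool.Agent.H53.SGC.CL

namespace Pool.SG

open scoped ComplexConjugate

theorem star_PP (hEA : ELAStmt) (K : ℕ) : star (PP K) = PP K := by
  have h := (hEA.2.1 0 ∅ ∅ (by simp) (by simp) (fun T => if T ⊆ Finset.range K then 1 else 0) 1
    (fun T => by split_ifs <;> simp)).2.1
  unfold PP
  rw [h]
  congr 1
  ext T
  split_ifs <;> simp

/-- elements of `AA z` commuting with `PP K` at `x` -/
def comm (hEA : ELAStmt) (z : ℕ → SS) (x : SS) (K : ℕ) : StarSubalgebra ℂ (AA z) where
  carrier := {g | PP K * (g : BB) x = (g : BB) x * PP K}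
  mul_mem' := by
    intro a b ha hb
    change PP K * ((a : BB) x * (b : BB) x) = ((a : BB) x * (b : BB) x) * PP K
    rw [← mul_assoc, ha, mul_assoc, hb, mul_assoc]
  add_mem' := by
    intro a b ha hb
    change PP K * ((a : BB) x + (b : BB) x) = ((a : BB) x + (b : BB) x) * PP K
    rw [mul_add, add_mul, ha, hb]
  algebraMap_mem' := by
    intro c
    change PP K * (algebraMap ℂ BB c) x = (algebraMap ℂ BB c) x * PP K
    have h0 : (algebraMap ℂ BB c) x = c • (1 : BH) := by
      rw [Algebra.algebraMap_eq_smul_one]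
      rfl
    rw [h0, mul_smul_comm, smul_mul_assoc, mul_one, one_mul]
  star_mem' := by
    intro a ha
    change PP K * star ((a : BB) x) = star ((a : BB) x) * PP K
    have h1 : star (PP K * (a : BB) x) = star ((a : BB) x * PP K) := by rw [ha]
    rw [star_mul, star_mul, star_PP hEA] at h1
    exact h1.symm

theorem nf (hNG : NGStmt) (hE : ELStmt) (hEA : ELAStmt) (hGC : GCStmt) : NFStmt := by
  classical
  intro z F hF htop
  obtain ⟨x, K, hx⟩ := hNG z (Subtype.val '' F) (hF.image _) (by
    rintro _ ⟨f, _, rfl⟩; exact f.2)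
  have hsub : StarAlgebra.adjoin ℂ F ≤ comm hEA z x K := by
    refine StarAlgebra.adjoin_le ?_
    intro f hf
    exact hx _ ⟨f, hf, rfl⟩
  have hcont : Continuous (fun g : AA z => (g : BB) x) :=
    (continuous_eval_const x).comp continuous_subtype_val
  have hclosed : IsClosed ((comm hEA z x K : StarSubalgebra ℂ (AA z)) : Set (AA z)) := by
    change IsClosed {g : AA z | PP K * (g : BB) x = (g : BB) x * PP K}
    exact isClosed_eq (continuous_const.mul hcont) (hcont.mul continuous_const)
  have htop2 : (⊤ : StarSubalgebra ℂ (AA z)) ≤ comm hEA z x K := by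
    rw [← htop]
    exact StarSubalgebra.topologicalClosure_minimal hsub hclosed
  have hs1 : ({K} : Finset ℕ) ⊆ Finset.range (K + 1) := by simp
  have key : ∀ β : Fin (NN (({K} : Finset ℕ).sup id) + 1),
      co (({K} : Finset ℕ).sup id) β x = 0 := by
    intro β
    have hy : G z (K + 1) {K} ∅ (co (({K} : Finset ℕ).sup id) β) ∈ A0 z :=
      StarAlgebra.subset_adjoin ℂ _ ⟨K + 1, {K}, β, hs1, by simp, rfl⟩
    have hy2 : G z (K + 1) {K} ∅ (co (({K} : Finset ℕ).sup id) β) ∈ AA z :=
      StarSubalgebra.le_topologicalClosure _ hy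
    have h1 : PP K * (G z (K + 1) {K} ∅ (co (({K} : Finset ℕ).sup id) β)) x
        = (G z (K + 1) {K} ∅ (co (({K} : Finset ℕ).sup id) β)) x * PP K :=
      htop2 (x := ⟨_, hy2⟩) trivial
    obtain ⟨⟨C, hC⟩, hG⟩ := hGC z (K + 1) {K} ∅ hs1 (by simp) (co (({K} : Finset ℕ).sup id) β)
    rw [hG x] at h1
    have h2 := (hEA.2.1 (K + 1) {K} ∅ hs1 (by simp) _ C (fun T => hC x T)).1 ∅
    have h3 : low (K + 1) ∅ = ∅ := by simp [low]
    have h4 : high (K + 1) ∅ = ∅ := by simp [high]
    rw [h3, if_pos rfl, h4] at h2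
    have h5 : pt z x ∅ = x := by simp [pt]
    generalize hW : el (K + 1) {K} ∅
      (fun T => (co (({K} : Finset ℕ).sup id) β) (pt z x T)) = W at h1 h2
    rw [h5] at h2
    have h6 : PP K (W (bv ∅)) = W (PP K (bv ∅)) := by
      have := congrArg (fun V : BH => V (bv ∅)) h1
      exact this
    have h6' := congrArg (fun ξ : HH => (ξ : Finset ℕ → ℂ) {K}) h6
    simp only [PP_apply hE] at h6'
    rw [if_neg (by simp), PP_bv hE K ∅ (by simp), h2] at h6'
    rw [lp.coeFn_smul, Pi.smul_apply, bv_apply] at h6'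
    simpa using h6'.symm
  have h7 : ‖(x (({K} : Finset ℕ).sup id)).1‖ = 1 := by
    have := (x (({K} : Finset ℕ).sup id)).2
    simpa using this
  have h8 : (x (({K} : Finset ℕ).sup id)).1 = 0 := by
    ext β
    have := key β
    unfold co at this
    simpa using this
  rw [h8] at h7
  simp at h7

end Pool.SG
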