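import Pool.Agent.H53.SGC.GG

namespace Pool.SG

open scoped ComplexConjugate

noncomputable section

theorem bv_norm (t : Finset ℕ) : ‖bv t‖ = 1 := by
  unfold bv
  rw [lp.norm_single (by simp)]
  simp

theorem mc_le (f : BH) (s t : Finset ℕ) : ‖mc f s t‖ ≤ ‖f‖ := by
  unfold mc
  calc ‖(f (bv t) : Finset ℕ → ℂ) s‖ ≤ ‖f (bv t)‖ := lp.norm_apply_le_norm (by simp) _ _
    _ ≤ ‖f‖ * ‖bv t‖ := f.le_opNorm _
    _ = ‖f‖ := by rw [bv_norm, mul_one]

theorem mc_le' (f : BB) (x : SS) (s t : Finset ℕ) : ‖mc (f x) s t‖ ≤ ‖f‖ :=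
  (mc_le _ _ _).trans (ContinuousMap.norm_coe_le_norm f x)

theorem mc_sub (f g : BH) (s t : Finset ℕ) : mc (f - g) s t = mc f s t - mc g s t := rfl

theorem mc_cont (f : BB) (s t : Finset ℕ) : Continuous (fun x => mc (f x) s t) := by
  have h1 : Continuous (fun x => (f x) (bv t)) :=
    (ContinuousLinearMap.apply ℂ HH (bv t)).continuous.comp f.continuous
  exact (continuous_apply s).comp ((lp.uniformContinuous_coe).continuous.comp h1)

theorem gen_mem (z : ℕ → SS) (k : ℕ) (s : Finset ℕ) (j : ℕ) (hj : s.sup id = j)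
    (β : Fin (NN j + 1)) (hs : s ⊆ Finset.range k) (hne : s.Nonempty) :
    G z k s ∅ (co j β) ∈ A0 z := by
  subst hj
  exact StarAlgebra.subset_adjoin ℂ _ ⟨k, s, β, hs, hne, rfl⟩

/-- additivity of `G` -/
def Ghom (hGA : GAStmt) (z : ℕ → SS) (k : ℕ) (s t : Finset ℕ) (hs : s ⊆ Finset.range k)
    (ht : t ⊆ Finset.range k) : C(SS, ℂ) →+ BB where
  toFun h := G z k s t h
  map_zero' := by
    have h := (hGA z k s t hs ht 0).2.2.1 0
    rw [add_zero] at h
    exact left_eq_add.mp h.symm
  map_add' h h' := ((hGA z k s t hs ht h).2.2.1 h').symm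

theorem co_sum (j : ℕ) : ∑ β, co j β * star (co j β) = 1 := by
  ext x
  have h1 : (∑ β, co j β * star (co j β)) x = ∑ β, (co j β x * conj (co j β x)) := by
    rw [ContinuousMap.coe_sum, Finset.sum_apply]
    rfl
  rw [h1]
  have h2 : ‖(x j).1‖ = 1 := by
    have := (x j).2
    simp
  have h3 : ∑ β, ((x j).1 β) ^ 2 = 1 := by
    have := EuclideanSpace.norm_sq_eq (x j).1
    rw [h2] at this
    simpa using this.symm
  have h4 : ∀ β, co j β x * conj (co j β x) = ((((x j).1 β) ^ 2 : ℝ) : ℂ) := by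
    intro β
    unfold co
    simp only [ContinuousMap.coe_mk, Complex.conj_ofReal]
    push_cast
    ring
  simp_rw [h4]
  rw [← Complex.ofReal_sum, h3]
  simp

theorem G_norm_le (hE : ELStmt) (hGC : GCStmt) (z : ℕ → SS) (k : ℕ) (s t : Finset ℕ)
    (hs : s ⊆ Finset.range k) (ht : t ⊆ Finset.range k) : ‖G z k s t 1‖ ≤ 1 := by
  rw [ContinuousMap.norm_le _ zero_le_one]
  intro x
  rw [(hGC z k s t hs ht 1).2 x]
  exact (hE k s t hs ht _ 1 (by intro T; simp)).2

theorem unit_mem (hGA : GAStmt) (z : ℕ → SS) (k : ℕ) (s t : Finset ℕ)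
    (hs : s ⊆ Finset.range k) (ht : t ⊆ Finset.range k) (hsn : s.Nonempty) (htn : t.Nonempty)
    (h : s.sup id = t.sup id) : G z k s t 1 ∈ A0 z := by
  have h1 : G z k s t 1 = ∑ β, G z k s ∅ (co (t.sup id) β) * star (G z k t ∅ (co (t.sup id) β)) := by
    have h2 : ∀ β, G z k s ∅ (co (t.sup id) β) * star (G z k t ∅ (co (t.sup id) β))
        = Ghom hGA z k s t hs ht (co (t.sup id) β * star (co (t.sup id) β)) := by
      intro β
      rw [(hGA z k t ∅ ht (by simp) _).1,
        (hGA z k s ∅ hs (by simp) _).2.1 ∅ t (by simp) ht, if_pos rfl]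
      rfl
    simp_rw [h2]
    rw [← map_sum, co_sum]
    rfl
  rw [h1]
  refine sum_mem fun β _ => mul_mem (gen_mem z k s _ h β hs hsn) (star_mem (gen_mem z k t _ rfl β ht htn))

instance instAANormedRing (z : ℕ → SS) : NormedRing (AA z) := (instAA z).toNormedRing
instance instAARing (z : ℕ → SS) : Ring (AA z) := (instAANormedRing z).toRing
instance instAAComplete (z : ℕ → SS) : CompleteSpace (AA z) := (instAA z).toCompleteSpace

theorem neumann {R : Type} [NormedRing R] [CompleteSpace R] (I : TwoSidedIdeal R) (p w : R)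
    (hw : w ∈ I) (hpp : p * p = p) (hpw : p * w = w) (h : ‖p - w‖ < 1) : p ∈ I := by
  obtain ⟨u, hu⟩ := isUnit_one_sub_of_norm_lt_one h
  have e1 : p * (1 - (p - w)) = w := by
    rw [mul_sub, mul_sub, mul_one, hpp, hpw]
    simp
  have e4 : p = w * (↑u⁻¹ : R) := by
    rw [← e1, ← hu, mul_assoc, Units.mul_inv, mul_one]
  rw [e4]
  exact I.mul_mem_right _ _ hw

theorem si (hE : ELStmt) (hEA : ELAStmt) (hGC : GCStmt) (hGA : GAStmt) (hGD : GDStmt) :
    SIStmt := by
  classical
  intro z hz
  -- nontriviality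
  have x00 : SS := z 0
  have hne : (1 : AA z) ≠ 0 := by
    intro h
    have h1 : (1 : BB) = 0 := congrArg Subtype.val h
    have h2 : (1 : BH) = 0 := congrArg (fun f : BB => f x00) h1
    have h3 : bv ∅ = 0 := congrArg (fun f : BH => f (bv ∅)) h2
    have h4 := bv_norm ∅
    rw [h3, norm_zero] at h4
    exact zero_ne_one h4
  have key : ∀ I : TwoSidedIdeal (AA z), I ≠ ⊥ → (1 : AA z) ∈ I := by
    intro I hI
    obtain ⟨b, hbI, hb0⟩ : ∃ b : AA z, b ∈ I ∧ b ≠ 0 := by
      by_contra hcon
      push Not at hcon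
      apply hI
      ext x
      rw [TwoSidedIdeal.mem_bot]
      exact ⟨fun hx => hcon x hx, fun hx => by rw [hx]; exact I.zero_mem⟩
    -- the predicate on `BB`
    let P : BB → Prop := fun f => ∃ h : f ∈ AA z, (⟨f, h⟩ : AA z) ∈ I
    have Pl : ∀ f g : BB, g ∈ AA z → P f → P (g * f) := by
      rintro f g hg ⟨h, hf⟩
      exact ⟨mul_mem hg h, I.mul_mem_left ⟨g, hg⟩ ⟨f, h⟩ hf⟩
    have Pr : ∀ f g : BB, g ∈ AA z → P f → P (f * g) := by
      rintro f g hg ⟨h, hf⟩
      exact ⟨mul_mem h hg, I.mul_mem_right ⟨f, h⟩ ⟨g, hg⟩ hf⟩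
    have Padd : ∀ f g : BB, P f → P g → P (f + g) := by
      rintro f g ⟨h, hf⟩ ⟨h', hg⟩
      exact ⟨add_mem h h', I.add_mem hf hg⟩
    have P0 : P 0 := ⟨zero_mem _, I.zero_mem⟩
    have Psum : ∀ {ι : Type} (A : Finset ι) (F : ι → BB), (∀ i ∈ A, P (F i)) →
        P (∑ i ∈ A, F i) := by
      intro ι A F
      induction A using Finset.induction_on with
      | empty => intro _; simpa using P0
      | insert a A ha ih =>
        intro h
        rw [Finset.sum_insert ha]
        exact Padd _ _ (h a (Finset.mem_insert_self _ _))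
          (ih fun i hi => h i (Finset.mem_insert_of_mem hi))
    have hA0 : ∀ f : BB, f ∈ A0 z → f ∈ AA z := fun f hf =>
      StarSubalgebra.le_topologicalClosure _ hf
    -- a nonzero coefficient
    obtain ⟨x0, s, t, hγ⟩ : ∃ (x0 : SS) (s t : Finset ℕ), mc ((b : BB) x0) s t ≠ 0 := by
      by_contra hcon
      push Not at hcon
      apply hb0
      apply Subtype.ext
      ext1 x
      refine ela_ext fun s t => ?_
      rw [hcon x s t]
      rfl
    set γ := mc ((b : BB) x0) s t with hγdef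
    have hγpos : 0 < ‖γ‖ := norm_pos_iff.2 hγ
    -- approximation
    have hbcl : (b : BB) ∈ closure ((A0 z : StarSubalgebra ℂ BB) : Set BB) := by
      have := b.2
      rwa [← StarSubalgebra.topologicalClosure_coe]
    obtain ⟨a, haA, hab⟩ := Metric.mem_closure_iff.1 hbcl (‖γ‖ / 4) (by positivity)
    rw [dist_eq_norm] at hab
    obtain ⟨k, hk⟩ := hGD z a haA
    -- the stage `m`
    have hUo : IsOpen {y : SS | ‖mc (a y) s t - mc (a x0) s t‖ < ‖γ‖ / 4} :=
      isOpen_lt (((mc_cont a s t).sub continuous_const).norm) continuous_const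
    obtain ⟨y, hyU, m, hm, rfl⟩ := (hz (max k (max (s.sup id + 1) (t.sup id + 1)))).inter_open_nonempty
      _ hUo ⟨x0, by simp [hγpos]⟩
    have hkm : k ≤ m := (le_max_left _ _).trans hm
    have hsm : s ⊆ Finset.range m := by
      intro i hi
      have h1 : i ≤ s.sup id := Finset.le_sup (f := id) hi
      have h2 : s.sup id + 1 ≤ m := ((le_max_left _ _).trans (le_max_right _ _)).trans hm
      exact Finset.mem_range.2 (by omega)
    have htm : t ⊆ Finset.range m := by
      intro i hi
      have h1 : i ≤ t.sup id := Finset.le_sup (f := id) hi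
      have h2 : t.sup id + 1 ≤ m := ((le_max_right _ _).trans (le_max_right _ _)).trans hm
      exact Finset.mem_range.2 (by omega)
    set lam := mc (a (z m)) s t with hlam
    have h1 : ‖γ - mc (a x0) s t‖ < ‖γ‖ / 4 := by
      have h2 : γ - mc (a x0) s t = mc (((b : BB) - a) x0) s t := rfl
      rw [h2]
      exact (mc_le' _ _ _ _).trans_lt hab
    have h2 : ‖lam - mc (a x0) s t‖ < ‖γ‖ / 4 := hyU
    have hlamge : ‖γ‖ / 2 < ‖lam‖ := by
      have e1 : γ = (γ - mc (a x0) s t) - (lam - mc (a x0) s t) + lam := by ring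
      have e2 : ‖γ‖ ≤ ‖γ - mc (a x0) s t‖ + ‖lam - mc (a x0) s t‖ + ‖lam‖ := by
        conv_lhs => rw [e1]
        exact (norm_add_le _ _).trans (add_le_add (norm_sub_le _ _) le_rfl)
      linarith
    have hlam0 : lam ≠ 0 := by
      intro h
      rw [h, norm_zero] at hlamge
      linarith
    -- matrix units
    have hins : ∀ r : Finset ℕ, r ⊆ Finset.range m → insert m r ⊆ Finset.range (m + 1) := by
      intro r hr i hi
      rw [Finset.mem_insert] at hi
      rcases hi with rfl | hi
      · simp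
      · have := Finset.mem_range.1 (hr hi)
        exact Finset.mem_range.2 (by omega)
    have hm1 : ({m} : Finset ℕ) ⊆ Finset.range (m + 1) := by simp
    have hsup : ∀ r : Finset ℕ, r ⊆ Finset.range m → (insert m r).sup id = m := by
      intro r hr
      rw [Finset.sup_insert]
      apply sup_eq_left.2
      refine Finset.sup_le fun i hi => ?_
      have := Finset.mem_range.1 (hr hi)
      simp only [id]; omega
    have hsup1 : ({m} : Finset ℕ).sup id = m := by simp
    set X := G z (m + 1) {m} (insert m s) 1 with hX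
    set Y := G z (m + 1) (insert m t) {m} 1 with hY
    set p := G z (m + 1) {m} {m} 1 with hp
    have hXA : X ∈ AA z := hA0 _ (unit_mem hGA z _ _ _ hm1 (hins s hsm) (by simp) (by simp)
      (by rw [hsup1, hsup s hsm]))
    have hYA : Y ∈ AA z := hA0 _ (unit_mem hGA z _ _ _ (hins t htm) hm1 (by simp) (by simp)
      (by rw [hsup1, hsup t htm]))
    have hpA : p ∈ AA z := hA0 _ (unit_mem hGA z _ _ _ hm1 hm1 (by simp) (by simp) rfl)
    have hXaY : X * a * Y = lam • p := by
      ext1 x
      change X x * a x * Y x = lam • p x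
      have eY : Y x = Em m t := (hGC z (m + 1) (insert m t) {m} (hins t htm) hm1 1).2 x
      have eX : X x = el (m + 1) {m} (insert m s) (fun _ => 1) :=
        (hGC z (m + 1) {m} (insert m s) hm1 (hins s hsm) 1).2 x
      have ep : p x = el (m + 1) {m} {m} (fun _ => 1) :=
        (hGC z (m + 1) {m} {m} hm1 hm1 1).2 x
      rw [mul_assoc, eY, (hk.1.2 m hkm x).2 t htm, Finset.mul_sum]
      have e3 : ∀ r ∈ (Finset.range m).powerset, X x * (mc (a (z m)) r t • Em m r)
          = if r = s then lam • p x else 0 := by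
        intro r hr
        rw [Finset.mem_powerset] at hr
        rw [mul_smul_comm, eX]
        unfold Em
        rw [(hEA.2.1 (m + 1) {m} (insert m s) hm1 (hins s hsm) (fun _ => 1) 1 (by simp)).2.2.1
          (insert m r) {m} (hins r hr) hm1 (fun _ => 1) 1 (by simp)]
        by_cases hrs : r = s
        · subst hrs
          rw [if_pos rfl, if_pos rfl, ep]
          simp [hlam]
        · rw [if_neg hrs, if_neg, smul_zero]
          intro hcon
          apply hrs
          have n1 : m ∉ r := fun h => by have := Finset.mem_range.1 (hr h); omega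
          have n2 : m ∉ s := fun h => by have := Finset.mem_range.1 (hsm h); omega
          have := congrArg (fun S : Finset ℕ => S.erase m) hcon
          simp only [Finset.erase_insert n1, Finset.erase_insert n2] at this
          exact this.symm
      rw [Finset.sum_congr rfl e3, Finset.sum_ite_eq', if_pos (Finset.mem_powerset.2 hsm)]
    -- products
    have hpX : p * X = X := by
      rw [hp, hX, (hGA z (m + 1) {m} {m} hm1 hm1 1).2.1 {m} (insert m s) hm1 (hins s hsm) 1,
        if_pos rfl, one_mul]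
    have hpp : p * p = p := by
      rw [hp, (hGA z (m + 1) {m} {m} hm1 hm1 1).2.1 {m} {m} hm1 hm1 1, if_pos rfl, one_mul]
    have hPb : P (X * (b : BB) * Y) := by
      have : P (b : BB) := ⟨b.2, hbI⟩
      exact Pr _ _ hYA (Pl _ _ hXA this)
    set w := lam⁻¹ • (X * (b : BB) * Y) with hw
    have hPw : P w := by
      have : w = (algebraMap ℂ BB lam⁻¹) * (X * (b : BB) * Y) := by
        rw [hw, Algebra.smul_def]
      rw [this]
      exact Pl _ _ ((AA z).algebraMap_mem _) hPb
    have hpw : p * w = w := by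
      rw [hw, mul_smul_comm, ← mul_assoc, ← mul_assoc, hpX]
    have hwp : ‖w - p‖ < 1 := by
      have e1 : w - p = lam⁻¹ • (X * ((b : BB) - a) * Y) := by
        rw [mul_sub, sub_mul, smul_sub, hXaY, smul_smul, inv_mul_cancel₀ hlam0, one_smul]
      rw [e1, norm_smul, norm_inv]
      have e2 : ‖X * ((b : BB) - a) * Y‖ ≤ ‖γ‖ / 4 := by
        have n1 : ‖X‖ ≤ 1 := G_norm_le hE hGC z _ _ _ hm1 (hins s hsm)
        have n2 : ‖Y‖ ≤ 1 := G_norm_le hE hGC z _ _ _ (hins t htm) hm1
        calc ‖X * ((b : BB) - a) * Y‖ ≤ ‖X * ((b : BB) - a)‖ * ‖Y‖ := norm_mul_le _ _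
          _ ≤ (‖X‖ * ‖(b : BB) - a‖) * ‖Y‖ :=
            mul_le_mul_of_nonneg_right (norm_mul_le _ _) (norm_nonneg _)
          _ ≤ (1 * (‖γ‖ / 4)) * 1 := by
            apply mul_le_mul _ n2 (norm_nonneg _) (by positivity)
            exact mul_le_mul n1 hab.le (norm_nonneg _) zero_le_one
          _ = ‖γ‖ / 4 := by ring
      have hpos : 0 < ‖lam‖ := norm_pos_iff.2 hlam0
      rw [inv_mul_lt_iff₀ hpos]
      linarith
    -- p in the ideal
    have hPp : P p := by
      obtain ⟨hwA, hwI⟩ := hPw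
      refine ⟨hpA, ?_⟩
      refine neumann I ⟨p, hpA⟩ ⟨w, hwA⟩ hwI (Subtype.ext hpp) (Subtype.ext hpw) ?_
      have : ‖(⟨p, hpA⟩ : AA z) - ⟨w, hwA⟩‖ = ‖p - w‖ := rfl
      rw [this, norm_sub_rev]
      exact hwp
    -- E_{∅∅}
    have hP0 : P (G z (m + 1) ∅ ∅ 1) := by
      have e1 : G z (m + 1) ∅ ∅ 1 = ∑ β, star (G z (m + 1) {m} ∅ (co m β)) *
          G z (m + 1) {m} ∅ (co m β) := by
        have h2 : ∀ β, star (G z (m + 1) {m} ∅ (co m β)) * G z (m + 1) {m} ∅ (co m β)
            = Ghom hGA z (m + 1) ∅ ∅ (by simp) (by simp) (co m β * star (co m β)) := by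
          intro β
          rw [(hGA z (m + 1) {m} ∅ hm1 (by simp) _).1,
            (hGA z (m + 1) ∅ {m} (by simp) hm1 _).2.1 {m} ∅ hm1 (by simp), if_pos rfl, mul_comm]
          rfl
        simp_rw [h2]
        rw [← map_sum, co_sum]
        rfl
      rw [e1]
      refine Psum _ _ fun β _ => ?_
      have hD : G z (m + 1) {m} ∅ (co m β) ∈ A0 z :=
        gen_mem z (m + 1) {m} m hsup1 β hm1 (by simp)
      refine Pl _ _ (hA0 _ (star_mem hD)) ?_
      have e2 : G z (m + 1) {m} ∅ (co m β) = p * G z (m + 1) {m} ∅ (co m β) := by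
        rw [hp, (hGA z (m + 1) {m} {m} hm1 hm1 1).2.1 {m} ∅ hm1 (by simp), if_pos rfl, one_mul]
      rw [e2]
      exact Pr _ _ (hA0 _ hD) hPp
    have hPs : ∀ r ∈ (Finset.range (m + 1)).powerset, P (G z (m + 1) r r 1) := by
      intro r hr
      rw [Finset.mem_powerset] at hr
      by_cases hrn : r.Nonempty
      · have e1 : G z (m + 1) r r 1 = ∑ β, G z (m + 1) r ∅ (co (r.sup id) β) *
            star (G z (m + 1) r ∅ (co (r.sup id) β)) := by
          have h2 : ∀ β, G z (m + 1) r ∅ (co (r.sup id) β) *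
              star (G z (m + 1) r ∅ (co (r.sup id) β))
              = Ghom hGA z (m + 1) r r hr hr (co (r.sup id) β * star (co (r.sup id) β)) := by
            intro β
            rw [(hGA z (m + 1) r ∅ hr (by simp) _).1,
              (hGA z (m + 1) r ∅ hr (by simp) _).2.1 ∅ r (by simp) hr, if_pos rfl]
            rfl
          simp_rw [h2]
          rw [← map_sum, co_sum]
          rfl
        rw [e1]
        refine Psum _ _ fun β _ => ?_
        have hD : G z (m + 1) r ∅ (co (r.sup id) β) ∈ A0 z :=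
          gen_mem z (m + 1) r _ rfl β hr hrn
        refine Pr _ _ (hA0 _ (star_mem hD)) ?_
        have e2 : G z (m + 1) r ∅ (co (r.sup id) β)
            = G z (m + 1) r ∅ (co (r.sup id) β) * G z (m + 1) ∅ ∅ 1 := by
          rw [(hGA z (m + 1) r ∅ hr (by simp) _).2.1 ∅ ∅ (by simp) (by simp), if_pos rfl, mul_one]
        rw [e2]
        exact Pl _ _ (hA0 _ hD) hP0
      · rw [Finset.not_nonempty_iff_eq_empty] at hrn
        rw [hrn]
        exact hP0
    have hP1 : P 1 := by
      rw [← (hGA z (m + 1) ∅ ∅ (by simp) (by simp) 1).2.2.2]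
      exact Psum _ _ hPs
    obtain ⟨h, h'⟩ := hP1
    exact h'
  refine ⟨{ exists_pair_ne := ⟨⊥, ⊤, ?_⟩, eq_bot_or_eq_top := ?_ }⟩
  · intro h
    apply hne
    have : (1 : AA z) ∈ (⊥ : TwoSidedIdeal (AA z)) := by rw [h]; trivial
    rwa [TwoSidedIdeal.mem_bot] at this
  · intro I
    by_cases hI : I = ⊥
    · exact Or.inl hI
    · right
      have h1 := key I hI
      rw [eq_top_iff]
      intro x _
      have := I.mul_mem_left x 1 h1
      rwa [mul_one] at this

end

end Pool.SG
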