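import Pool.Agent.H53.SGC.TopDefs

namespace Pool.SG

open Finset

section
variable {n : ℕ} (ty : Fin n → ℕ) (l : ℕ)

/-- coefficients of the spherical coordinates -/
noncomputable def coef (θ : Fin n → ℝ) : Option {c : Fin n // ty c = l} → ℝ
  | none => ∏ b : {c : Fin n // ty c = l}, Real.sin (θ b)
  | some c => Real.cos (θ c) * ∏ b ∈ univ.filter (fun b : {c : Fin n // ty c = l} => c < b),
      Real.sin (θ b)

theorem coef_sq (θ : Fin n → ℝ) : ∑ o, (coef ty l θ o) ^ 2 = 1 := by
  rw [Fintype.sum_option]
  have h := Finset.prod_add_ordered (univ : Finset {c : Fin n // ty c = l})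
    (fun b => Real.sin (θ b) ^ 2) (fun b => Real.cos (θ b) ^ 2)
  simp only [Real.sin_sq_add_cos_sq, prod_const_one, mul_one] at h
  rw [h]
  simp only [coef, mul_pow, Finset.prod_pow]

theorem coef_cont (o : Option {c : Fin n // ty c = l}) : Continuous (fun θ => coef ty l θ o) := by
  cases o with
  | none =>
    simp only [coef]
    refine continuous_finsetProd _ fun b _ => ?_
    fun_prop
  | some c =>
    simp only [coef]
    refine Continuous.mul (by fun_prop) ?_
    refine continuous_finsetProd _ fun b _ => ?_
    fun_prop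

theorem coef_congr (θ θ' : Fin n → ℝ) (h : ∀ a, ty a = l → θ a = θ' a) :
    coef ty l θ = coef ty l θ' := by
  ext o
  cases o with
  | none =>
    simp only [coef]
    exact prod_congr rfl fun b _ => by rw [h b b.2]
  | some c =>
    simp only [coef]
    rw [h c c.2]
    congr 1
    exact prod_congr rfl fun b _ => by rw [h b b.2]

theorem coef_R1 (c : Fin n) (hc : ty c = l) (θ : Fin n → ℝ) (hθ : θ c = Real.pi) :
    coef ty l θ = - coef ty l (fun a => if a = c then 0 else
          if c < a ∧ ty a = ty c then Real.pi - θ a else θ a) := by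
  set θ' : Fin n → ℝ := fun a => if a = c then 0 else
          if c < a ∧ ty a = ty c then Real.pi - θ a else θ a with hθ'
  have h0 : θ' c = 0 := by simp [hθ']
  have h1 : ∀ a, c < a → ty a = l → θ' a = Real.pi - θ a := by
    intro a ha hal
    simp only [hθ']
    rw [if_neg (ne_of_gt ha), if_pos ⟨ha, by rw [hal, hc]⟩]
  ext o
  cases o with
  | none =>
    simp only [coef, Pi.neg_apply]
    rw [prod_eq_zero (mem_univ (⟨c, hc⟩ : {c : Fin n // ty c = l})) (by simp [hθ]),
      prod_eq_zero (mem_univ (⟨c, hc⟩ : {c : Fin n // ty c = l})) (by simp [h0]), neg_zero]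
  | some d =>
    simp only [coef, Pi.neg_apply]
    rcases lt_trichotomy d (⟨c, hc⟩ : {c : Fin n // ty c = l}) with h | h | h
    · rw [prod_eq_zero (i := (⟨c, hc⟩ : {c : Fin n // ty c = l})) (by simp [h]) (by simp [hθ]),
        prod_eq_zero (i := (⟨c, hc⟩ : {c : Fin n // ty c = l})) (by simp [h]) (by simp [h0])]
      simp
    · subst h
      simp only [hθ, h0, Real.cos_pi, Real.cos_zero]
      have : ∏ b ∈ univ.filter (fun b : {c : Fin n // ty c = l} => (⟨c, hc⟩ : {c : Fin n // ty c = l}) < b),
          Real.sin (θ' b) = ∏ b ∈ univ.filter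
            (fun b : {c : Fin n // ty c = l} => (⟨c, hc⟩ : {c : Fin n // ty c = l}) < b),
          Real.sin (θ b) := by
        refine prod_congr rfl fun b hb => ?_
        rw [mem_filter] at hb
        rw [h1 b hb.2 b.2, Real.sin_pi_sub]
      rw [this]; ring
    · rw [h1 d h d.2, Real.cos_pi_sub]
      have : ∏ b ∈ univ.filter (fun b : {c : Fin n // ty c = l} => d < b),
          Real.sin (θ' b) = ∏ b ∈ univ.filter
            (fun b : {c : Fin n // ty c = l} => d < b), Real.sin (θ b) := by
        refine prod_congr rfl fun b hb => ?_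
        rw [mem_filter] at hb
        have : (c : Fin n) < (b : Fin n) := lt_trans h hb.2
        rw [h1 b this b.2, Real.sin_pi_sub]
      rw [this]; ring

theorem coef_R2 (a b : Fin n) (θ : Fin n → ℝ) (s : ℝ) (hab : a < b) (hty : ty a = ty b)
    (hs : Real.sin (θ b) = 0) : coef ty l (Function.update θ a s) = coef ty l θ := by
  by_cases hl : ty a = l
  · have hbl : ty b = l := by rw [← hty, hl]
    have hb' : Function.update θ a s b = θ b := by
      rw [Function.update_of_ne (ne_of_gt hab)]
    ext o
    cases o with
    | none =>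
      simp only [coef]
      rw [prod_eq_zero (mem_univ (⟨b, hbl⟩ : {c : Fin n // ty c = l})) (by simp [hb', hs]),
        prod_eq_zero (mem_univ (⟨b, hbl⟩ : {c : Fin n // ty c = l})) (by simp [hs])]
    | some d =>
      simp only [coef]
      by_cases hd : d < (⟨b, hbl⟩ : {c : Fin n // ty c = l})
      · rw [prod_eq_zero (i := (⟨b, hbl⟩ : {c : Fin n // ty c = l})) (by simp [hd])
            (by simp [hb', hs]),
          prod_eq_zero (i := (⟨b, hbl⟩ : {c : Fin n // ty c = l})) (by simp [hd]) (by simp [hs])]
        simp
      · have hd' : (b : Fin n) ≤ d := not_lt.1 hd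
        have had : a < (d : Fin n) := lt_of_lt_of_le hab hd'
        rw [Function.update_of_ne (ne_of_gt had)]
        congr 1
        refine prod_congr rfl fun c hc => ?_
        rw [mem_filter] at hc
        have : a < (c : Fin n) := lt_trans had hc.2
        rw [Function.update_of_ne (ne_of_gt this)]
  · refine coef_congr ty l _ _ fun c hc => ?_
    rw [Function.update_of_ne]
    rintro rfl
    exact hl hc

end

theorem sph : SPHStmt := by
  classical
  intro N n ty hN
  have hκ : ∀ l, Nonempty ({c : Fin n // ty c = l} ↪ Fin (N l)) := by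
    intro l
    rw [Function.Embedding.nonempty_iff_card_le]
    simpa using hN l
  let κ : ∀ l, {c : Fin n // ty c = l} ↪ Fin (N l) := fun l => (hκ l).some
  let σ : ∀ l, Option {c : Fin n // ty c = l} → Fin (N l + 1) := fun l o =>
    o.elim 0 (fun c => (κ l c).succ)
  have hσ : ∀ l, Function.Injective (σ l) := by
    intro l o o' h
    cases o with
    | none =>
      cases o' with
      | none => rfl
      | some c' => exact absurd h.symm (Fin.succ_ne_zero _)
    | some c =>
      cases o' with
      | none => exact absurd h (Fin.succ_ne_zero _)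
      | some c' =>
        have : κ l c = κ l c' := Fin.succ_injective _ h
        rw [(κ l).injective this]
  let V : (Fin n → ℝ) → ∀ l, EuclideanSpace ℝ (Fin (N l + 1)) := fun θ l =>
    WithLp.toLp 2 (Function.extend (σ l) (coef ty l θ) 0)
  have hV : ∀ θ l, V θ l ∈ Metric.sphere (0 : EuclideanSpace ℝ (Fin (N l + 1))) 1 := by
    intro θ l
    rw [mem_sphere_zero_iff_norm, EuclideanSpace.norm_eq]
    have : ∑ k, ‖(V θ l) k‖ ^ 2 = 1 := by
      rw [← coef_sq ty l θ]
      symm
      refine Fintype.sum_of_injective (σ l) (hσ l) _ _ ?_ ?_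
      · intro k hk
        have : Function.extend (σ l) (coef ty l θ) 0 k = 0 := by
          rw [Function.extend_apply' _ _ _ (by rintro ⟨o, ho⟩; exact hk ⟨o, ho⟩)]; rfl
        change ‖Function.extend (σ l) (coef ty l θ) 0 k‖ ^ 2 = 0
        rw [this]; simp
      · intro o
        change _ = ‖Function.extend (σ l) (coef ty l θ) 0 (σ l o)‖ ^ 2
        rw [(hσ l).extend_apply, Real.norm_eq_abs, sq_abs]
    rw [this, Real.sqrt_one]
  refine ⟨fun θ l => ⟨V θ l, hV θ l⟩, ?_, ?_, ?_⟩
  · refine continuous_pi fun l => ?_
    refine Continuous.subtype_mk ?_ _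
    refine (PiLp.continuous_toLp 2 _).comp ?_
    refine continuous_pi fun k => ?_
    by_cases hk : ∃ o, σ l o = k
    · obtain ⟨o, rfl⟩ := hk
      simp only [(hσ l).extend_apply]
      exact coef_cont ty l o
    · have : ∀ θ, Function.extend (σ l) (coef ty l θ) 0 k = 0 := fun θ => by
        rw [Function.extend_apply' _ _ _ hk]; rfl
      simp only [this]
      exact continuous_const
  · intro c θ hθ
    funext l
    by_cases hl : l = ty c
    · subst hl
      unfold flip
      rw [Function.update_self]
      apply Subtype.ext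
      change V θ (ty c) = - V _ (ty c)
      simp only [V]
      rw [coef_R1 ty (ty c) c rfl θ hθ]
      ext k
      by_cases hk : ∃ o, σ (ty c) o = k
      · obtain ⟨o, rfl⟩ := hk
        simp [(hσ (ty c)).extend_apply]
      · simp [Function.extend_apply' _ _ _ hk]
    · unfold flip
      rw [Function.update_of_ne hl]
      apply Subtype.ext
      change V θ l = V _ l
      simp only [V]
      rw [coef_congr ty l θ]
      intro a ha
      have h1 : a ≠ c := by rintro rfl; exact hl ha.symm
      rw [if_neg h1, if_neg]
      rintro ⟨_, h2⟩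
      exact hl (by rw [← ha, h2])
  · intro a b θ s hab hty hs
    funext l
    apply Subtype.ext
    change V _ l = V θ l
    simp only [V]
    rw [coef_R2 ty l a b θ s hab hty hs]

end Pool.SG
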