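import Pool.Agent.H53.SGC.CDefs

namespace Pool.SG

open TopologicalSpace

theorem ze : ZEStmt := by
  classical
  haveI : Nonempty SS := by
    refine ⟨fun j => ⟨EuclideanSpace.single 0 1, ?_⟩⟩
    simp
  haveI : SeparableSpace SS := inferInstance
  obtain ⟨d, hd⟩ := exists_dense_seq SS
  refine ⟨fun m => d (Nat.unpair m).1, fun k => ?_⟩
  refine hd.mono ?_
  rintro y ⟨i, rfl⟩
  refine ⟨Nat.pair i (k), Nat.right_le_pair i k, ?_⟩
  simp

end Pool.SG
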